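import Pool.Agent.W_MP_fe9afc_ag.Main

/-!
# Separably rationally connected Fano hypersurfaces over prime fields

For every prime `p`, every `n ≥ 2` and every `1 ≤ d ≤ n` there is a smooth hypersurface of degree
`d` in `ℙⁿ`, defined over `𝔽_p`, that is separably rationally connected: over the algebraic
closure of `𝔽_p` it carries a very free rational curve.
The definitions (smoothness, morphisms from `ℙ¹`, very free curves) are in
`Pool/Agent/W_MP_fe9afc_ag/Defs.lean`.
-/

namespace Pool.Agent.Results.MP_fe9afc_ag.SRCFano

open MvPolynomial Pool.Agent.W_MP_fe9afc_ag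

/-- **Separably rationally connected Fano hypersurfaces exist over every prime field, in every
dimension and of every degree.** -/
theorem result (p : ℕ) [Fact p.Prime] (n d : ℕ) (hn : 2 ≤ n) (hd : 1 ≤ d) (hdn : d ≤ n) :
    ∃ F : MvPolynomial (Fin (n + 1)) (ZMod p), F.IsHomogeneous d ∧
      IsSmoothHypersurface (map (algebraMap (ZMod p) (AlgebraicClosure (ZMod p))) F) ∧
      IsSRC (map (algebraMap (ZMod p) (AlgebraicClosure (ZMod p))) F) :=
  haveI : CharP (AlgebraicClosure (ZMod p)) p :=
    charP_of_injective_algebraMap (algebraMap (ZMod p) (AlgebraicClosure (ZMod p))).injective p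
  main Fact.out n d hn hd hdn

end Pool.Agent.Results.MP_fe9afc_ag.SRCFano
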